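import Pool.Agent.Helper13.Ram5.Alg

set_option autoImplicit false

/-! Module U1: countability, local finiteness and the partition of unity. -/

namespace Pool.Agent.Helper64.Ram5

open MeasureTheory Topology Set
open scoped Quaternion
open Pool.Agent.Helper10.Ram5
open Pool.Agent.Helper13.Ram5 (den_pos act_mul top_row)

lemma contDiff_star1 : ContDiff ℝ 1 (fun z : ℍ[ℝ] => star z) := by
  have : StarModule ℝ ℍ[ℝ] := ⟨fun r x => by simp⟩
  exact (starL' ℝ : ℍ[ℝ] ≃L[ℝ] ℍ[ℝ]).contDiff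

/-- `act g` is smooth on the upper half-space -/
lemma contDiffOn_act1 (g : GL2H) : ContDiffOn ℝ 1 (act g) UH := by
  have hz : ContDiff ℝ 1 (fun p : Pt => p.1) := contDiff_fst
  have hden : ContDiff ℝ 1 (den g) := by
    unfold den
    have h1 : ContDiff ℝ 1 (fun p : Pt => g.1 1 0 * p.1 + g.1 1 1) :=
      (contDiff_const.mul contDiff_fst).add contDiff_const
    exact (h1.norm_sq ℝ).add (contDiff_const.mul (contDiff_snd.pow 2))
  have hne : ∀ p ∈ UH, den g p ≠ 0 := fun p hp => (den_pos g hp).ne'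
  have hnum : ContDiff ℝ 1 (fun p : Pt => (g.1 0 0 * p.1 + g.1 0 1) *
      star (g.1 1 0 * p.1 + g.1 1 1) + p.2 ^ 2 • (g.1 0 0 * star (g.1 1 0))) := by
    have h1 : ContDiff ℝ 1 (fun p : Pt => g.1 0 0 * p.1 + g.1 0 1) :=
      (contDiff_const.mul hz).add contDiff_const
    have h2 : ContDiff ℝ 1 (fun p : Pt => star (g.1 1 0 * p.1 + g.1 1 1)) :=
      contDiff_star1.comp ((contDiff_const.mul hz).add contDiff_const)
    exact (h1.mul h2).add ((contDiff_snd.pow 2).smul contDiff_const)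
  unfold act
  refine ContDiffOn.prodMk ?_ ?_
  · exact (hden.contDiffOn.inv hne).smul hnum.contDiffOn
  · exact contDiff_snd.contDiffOn.div hden.contDiffOn hne

/-! ### countability -/

lemma countable_ring {R : Subring ℍ[ℝ]} (hR : NiceRing R) : Countable R := by
  have h1 : ((R : Set ℍ[ℝ])) = ⋃ n : ℕ, {x : ℍ[ℝ] | x ∈ R ∧ ‖x‖ ≤ n} := by
    ext x
    simp only [SetLike.mem_coe, mem_iUnion]
    constructor
    · intro hx
      obtain ⟨n, hn⟩ := exists_nat_ge ‖x‖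
      exact ⟨n, hx, hn⟩
    · rintro ⟨n, hx, _⟩
      exact hx
  have h2 : (R : Set ℍ[ℝ]).Countable := by
    rw [h1]
    exact countable_iUnion fun n => (hR.fin n).countable
  exact h2.to_subtype

theorem countable_Gam {R : Subring ℍ[ℝ]} (hR : NiceRing R) : Countable (Gam R) := by
  have h1 := countable_ring hR
  have h2 : Countable (Matrix (Fin 2) (Fin 2) R) := by
    unfold Matrix
    infer_instance
  have h3 : Countable (Matrix (Fin 2) (Fin 2) R)ˣ :=
    Function.Injective.countable (f := fun u : (Matrix (Fin 2) (Fin 2) R)ˣ => u.1) Units.val_injective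
  have h4 : ((Gam R : Set GL2H)).Countable := by
    unfold Gam
    rw [MonoidHom.coe_range]
    exact countable_range _
  exact h4.to_subtype

/-! ### entries -/

lemma entry_mem {R : Subring ℍ[ℝ]} {γ : GL2H} (hγ : γ ∈ Gam R) (i j : Fin 2) : γ.1 i j ∈ R := by
  obtain ⟨g, rfl⟩ := hγ
  simp

/-- the bottom row is not zero -/
lemma bottom_ne (γ : GL2H) (hc : γ.1 1 0 = 0) (hd : γ.1 1 1 = 0) : False := by
  have h : (γ.1 * γ.2) 1 1 = (1 : Matrix (Fin 2) (Fin 2) ℍ[ℝ]) 1 1 := by rw [γ.val_inv]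
  rw [Matrix.mul_apply, Fin.sum_univ_two, hc, hd] at h
  simp at h

lemma entries_finite {R : Subring ℍ[ℝ]} (hR : NiceRing R) (M : ℝ) :
    {γ : Gam R | ∀ i j, ‖(γ : GL2H).1 i j‖ ≤ M}.Finite := by
  have h1 : (Set.pi (univ : Set (Fin 2)) fun _ => Set.pi (univ : Set (Fin 2)) fun _ =>
      {x : ℍ[ℝ] | x ∈ R ∧ ‖x‖ ≤ M}).Finite :=
    Set.Finite.pi fun _ => Set.Finite.pi fun _ => hR.fin M
  refine Set.Finite.of_finite_image (f := fun γ : Gam R => fun i j => (γ : GL2H).1 i j)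
    (h1.subset ?_) ?_
  · rintro _ ⟨γ, hγ, rfl⟩
    intro i _ j _
    exact ⟨entry_mem γ.2 i j, hγ i j⟩
  · intro γ _ δ _ h
    apply Subtype.ext
    apply Units.ext
    apply Matrix.ext
    intro i j
    exact congrFun (congrFun h i) j

theorem local_finite {R : Subring ℍ[ℝ]} (hR : NiceRing R) {p : Pt} (hp : p ∈ UH) (C a : ℝ)
    (ha : 0 < a) :
    ∃ U ∈ 𝓝 p, U ⊆ UH ∧
      {γ : Gam R | ∃ q ∈ U, ‖(act γ q).1‖ ≤ C ∧ a ≤ (act γ q).2}.Finite := by
  have hp2 : 0 < p.2 := hp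
  set U : Set Pt := {q | ‖q.1‖ < ‖p.1‖ + 1 ∧ p.2 / 2 < q.2 ∧ q.2 < 2 * p.2} with hU
  have hUo : IsOpen U := by
    have c1 : Continuous fun q : Pt => ‖q.1‖ := by fun_prop
    have c2 : Continuous fun q : Pt => q.2 := by fun_prop
    exact (isOpen_lt c1 continuous_const).inter
      ((isOpen_lt continuous_const c2).inter (isOpen_lt c2 continuous_const))
  have hpU : p ∈ U := ⟨by linarith, by linarith, by linarith⟩
  refine ⟨U, hUo.mem_nhds hpU, fun q hq => ?_, ?_⟩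
  · have : p.2 / 2 < q.2 := hq.2.1
    show 0 < q.2
    linarith
  -- constants
  set Z := ‖p.1‖ + 1 with hZ
  have hZ0 : 0 < Z := by positivity
  set r0 := p.2 / 2 with hr0
  have hr00 : 0 < r0 := by positivity
  set D := 2 * p.2 / a with hD
  have hD0 : 0 < D := by positivity
  set m := min 1 (r0 ^ 2) with hm
  have hm0 : 0 < m := lt_min one_pos (by positivity)
  set E2 := D * C ^ 2 + (2 * p.2) ^ 2 / m with hE2
  have hE20 : 0 ≤ E2 := by positivity
  set Mc := Real.sqrt D / r0 with hMc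
  set MA := Real.sqrt E2 / r0 with hMA
  have hMc0 : 0 ≤ Mc := by positivity
  have hMA0 : 0 ≤ MA := by positivity
  set M := Mc + (Real.sqrt D + Mc * Z) + MA + (Real.sqrt E2 + MA * Z) with hM
  refine (entries_finite hR M).subset ?_
  rintro γ ⟨q, hq, hq1, hq2⟩
  obtain ⟨hqa, hqb, hqc⟩ : ‖q.1‖ < Z ∧ r0 < q.2 ∧ q.2 < 2 * p.2 := hq
  have hqU : q ∈ UH := by show 0 < q.2; linarith
  have hq20 : 0 < q.2 := hqU
  have hden := den_pos (γ : GL2H) hqU
  have hdenle : den γ q ≤ D := by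
    have h1 : a ≤ q.2 / den γ q := hq2
    rw [le_div_iff₀ hden] at h1
    rw [hD, le_div_iff₀ ha]
    linarith
  have hdendef : den γ q = ‖(γ : GL2H).1 1 0 * q.1 + (γ : GL2H).1 1 1‖ ^ 2 +
      ‖(γ : GL2H).1 1 0‖ ^ 2 * q.2 ^ 2 := rfl
  have aux : ∀ (x y : ℍ[ℝ]) (K : ℝ), 0 ≤ K → ‖x * q.1 + y‖ ^ 2 + ‖x‖ ^ 2 * q.2 ^ 2 ≤ K →
      ‖x‖ ≤ Real.sqrt K / r0 ∧ ‖y‖ ≤ Real.sqrt K + (Real.sqrt K / r0) * Z := by
    intro x y K hK hle
    have h1 : ‖x‖ ≤ Real.sqrt K / r0 := by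
      rw [le_div_iff₀ hr00]
      apply Real.le_sqrt_of_sq_le
      have h2 : (‖x‖ * r0) ^ 2 ≤ ‖x‖ ^ 2 * q.2 ^ 2 := by
        rw [mul_pow]
        gcongr
      have := sq_nonneg ‖x * q.1 + y‖
      linarith
    refine ⟨h1, ?_⟩
    have h2 : ‖x * q.1 + y‖ ≤ Real.sqrt K := by
      apply Real.le_sqrt_of_sq_le
      have : 0 ≤ ‖x‖ ^ 2 * q.2 ^ 2 := by positivity
      linarith
    have h3 : y = (x * q.1 + y) - x * q.1 := by abel
    calc ‖y‖ = ‖(x * q.1 + y) - x * q.1‖ := by rw [← h3]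
      _ ≤ ‖x * q.1 + y‖ + ‖x * q.1‖ := norm_sub_le _ _
      _ ≤ Real.sqrt K + (Real.sqrt K / r0) * Z := by
          rw [norm_mul]
          gcongr
  have hlow : m ≤ den γ q := by
    rw [hdendef]
    by_cases hc : (γ : GL2H).1 1 0 = 0
    · have hd : (γ : GL2H).1 1 1 ≠ 0 := fun hd => bottom_ne (γ : GL2H) hc hd
      have h1 := hR.disc _ (entry_mem γ.2 1 1) hd
      rw [hc]
      simp only [zero_mul, zero_add, norm_zero]
      have h2 : (1:ℝ) ≤ ‖(γ : GL2H).1 1 1‖ ^ 2 := by nlinarith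
      have h3 : m ≤ 1 := min_le_left _ _
      nlinarith
    · have h1 := hR.disc _ (entry_mem γ.2 1 0) hc
      have h2 : (1:ℝ) ≤ ‖(γ : GL2H).1 1 0‖ ^ 2 := by nlinarith
      have h3 : m ≤ r0 ^ 2 := min_le_right _ _
      have h4 : r0 ^ 2 ≤ q.2 ^ 2 := by gcongr
      have h5 : 0 ≤ ‖(γ : GL2H).1 1 0 * q.1 + (γ : GL2H).1 1 1‖ ^ 2 := by positivity
      have h6 : 1 * q.2 ^ 2 ≤ ‖(γ : GL2H).1 1 0‖ ^ 2 * q.2 ^ 2 := by gcongr
      linarith
  have hA : ‖(γ : GL2H).1 0 0 * q.1 + (γ : GL2H).1 0 1‖ ^ 2 +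
      ‖(γ : GL2H).1 0 0‖ ^ 2 * q.2 ^ 2 ≤ E2 := by
    rw [top_row (γ : GL2H) (hR.nrd_one _ γ.2) hqU, hE2]
    have h0 : (act (γ : GL2H) q).2 ^ 2 * den γ q = q.2 ^ 2 / den γ q := by
      show (q.2 / den γ q) ^ 2 * den γ q = q.2 ^ 2 / den γ q
      field_simp
    have h1 : ‖(act γ q).1‖ ^ 2 ≤ C ^ 2 := by
      have := norm_nonneg (act γ q).1
      gcongr
    have h2 : q.2 ^ 2 / den γ q ≤ (2 * p.2) ^ 2 / m := by gcongr
    have h3 : den γ q * ‖(act γ q).1‖ ^ 2 ≤ D * C ^ 2 := by gcongr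
    rw [add_mul, h0]
    linarith
  obtain ⟨h1, h2⟩ := aux _ _ D hD0.le (hdendef ▸ hdenle)
  obtain ⟨h3, h4⟩ := aux _ _ E2 hE20 hA
  have hs1 : 0 ≤ Real.sqrt D + Mc * Z := by positivity
  have hs2 : 0 ≤ Real.sqrt E2 + MA * Z := by positivity
  intro i j
  fin_cases i <;> fin_cases j
  · show ‖(γ : GL2H).1 0 0‖ ≤ M
    linarith
  · show ‖(γ : GL2H).1 0 1‖ ≤ M
    linarith
  · show ‖(γ : GL2H).1 1 0‖ ≤ M
    linarith
  · show ‖(γ : GL2H).1 1 1‖ ≤ M
    linarith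

/-! ### the partition of unity -/

/-- smooth function, positive on `{‖z‖ ≤ C, a ≤ r}`, supported in `{‖z‖ ≤ C + 1, a / 2 ≤ r}` -/
lemma exists_eta {C a : ℝ} (hC : 0 ≤ C) (ha : 0 < a) :
    ∃ η : Pt → ℝ, ContDiff ℝ 1 η ∧ (∀ p, 0 ≤ η p) ∧
      (∀ p, ‖p.1‖ ≤ C → a ≤ p.2 → 0 < η p) ∧
      (∀ p, η p ≠ 0 → ‖p.1‖ ≤ C + 1 ∧ a / 2 ≤ p.2) := by
  let f : ContDiffBump (0 : ℍ[ℝ]) := ⟨C + 1 / 2, C + 1, by linarith, by linarith⟩
  refine ⟨fun p => f p.1 * Real.smoothTransition (p.2 - a / 2), ?_, ?_, ?_, ?_⟩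
  · have h1 : ContDiff ℝ 1 (fun p : Pt => f p.1) := f.contDiff.comp contDiff_fst
    have h2 : ContDiff ℝ 1 (fun p : Pt => Real.smoothTransition (p.2 - a / 2)) :=
      Real.smoothTransition.contDiff.comp (contDiff_snd.sub contDiff_const)
    exact h1.mul h2
  · intro p
    exact mul_nonneg f.nonneg (Real.smoothTransition.nonneg _)
  · intro p hp1 hp2
    apply mul_pos
    · apply f.pos_of_mem_ball
      rw [mem_ball_zero_iff]
      show ‖p.1‖ < C + 1
      linarith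
    · apply Real.smoothTransition.pos_of_pos
      linarith
  · intro p hp
    constructor
    · by_contra hc
      apply hp
      have : f p.1 = 0 := by
        apply f.zero_of_le_dist
        rw [dist_zero_right]
        show C + 1 ≤ ‖p.1‖
        linarith
      simp only [this, zero_mul]
    · by_contra hc
      apply hp
      have : Real.smoothTransition (p.2 - a / 2) = 0 :=
        Real.smoothTransition.zero_of_nonpos (by linarith)
      simp only [this, mul_zero]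

theorem exists_kap {R : Subring ℍ[ℝ]} (hR : NiceRing R) {C a : ℝ} (ha : 0 < a)
    (hcov : Covers R C a) : ∃ (κ : Pt → ℝ) (C' a' : ℝ), Kap R κ C' a' := by
  have hC : 0 ≤ C := by
    obtain ⟨γ, _, h1, _⟩ := hcov ((0 : ℍ[ℝ]), (1 : ℝ)) (by show (0:ℝ) < 1; exact one_pos)
    exact (norm_nonneg _).trans h1
  obtain ⟨η, hηs, hη0, hηp, hηsupp⟩ := exists_eta hC ha
  have ha' : 0 < a / 2 := by positivity
  -- the sum
  set W : Pt → ℝ := fun p => ∑' γ : Gam R, η (act γ p) with hW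
  have hfin : ∀ p ∈ UH, ∃ U ∈ 𝓝 p, U ⊆ UH ∧ ∃ S : Finset (Gam R), ∀ q ∈ U, ∀ γ : Gam R,
      γ ∉ S → η (act γ q) = 0 := by
    intro p hp
    obtain ⟨U, hU, hUs, hf⟩ := local_finite hR hp (C + 1) (a / 2) ha'
    refine ⟨U, hU, hUs, hf.toFinset, fun q hq γ hγ => ?_⟩
    by_contra hc
    apply hγ
    rw [Set.Finite.mem_toFinset]
    exact ⟨q, hq, hηsupp _ hc⟩
  have hsum : ∀ p ∈ UH, Summable fun γ : Gam R => η (act γ p) := by
    intro p hp
    obtain ⟨U, hU, _, S, hS⟩ := hfin p hp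
    exact summable_of_ne_finset_zero (s := S) fun γ hγ => hS p (mem_of_mem_nhds hU) γ hγ
  have hWpos : ∀ p ∈ UH, 0 < W p := by
    intro p hp
    obtain ⟨γ, hγ, h1, h2⟩ := hcov p hp
    exact (hsum p hp).tsum_pos (fun δ => hη0 _) ⟨γ, hγ⟩ (hηp _ h1 h2)
  have hWinv : ∀ p ∈ UH, ∀ γ : Gam R, W (act γ p) = W p := by
    intro p hp γ
    show ∑' δ : Gam R, η (act δ (act γ p)) = ∑' δ : Gam R, η (act δ p)
    rw [← (Equiv.mulRight γ).tsum_eq (fun δ : Gam R => η (act δ p))]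
    congr 1
    funext δ
    rw [Equiv.coe_mulRight, Subgroup.coe_mul, act_mul _ _ (hR.nrd_one _ γ.2) hp]
  have hUHo : IsOpen UH := isOpen_lt continuous_const continuous_snd
  have hWs : ContDiffOn ℝ 1 W UH := by
    intro p hp
    apply ContDiffAt.contDiffWithinAt
    obtain ⟨U, hU, hUs, S, hS⟩ := hfin p hp
    have h1 : W =ᶠ[𝓝 p] fun q => ∑ γ ∈ S, η (act γ q) := by
      filter_upwards [hU] with q hq
      exact tsum_eq_sum fun γ hγ => hS q hq γ hγ
    refine ContDiffAt.congr_of_eventuallyEq ?_ h1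
    apply ContDiffAt.sum
    intro γ _
    exact hηs.contDiffAt.comp p
      ((contDiffOn_act1 γ).contDiffAt (hUHo.mem_nhds hp))
  set κ : Pt → ℝ := fun p => η p / W p with hκ
  have hηz : ∀ p : Pt, p.2 < a / 2 → η p = 0 := by
    intro p hp
    by_contra hc
    have := (hηsupp p hc).2
    linarith
  refine ⟨κ, C + 1, a / 2, ha', ?_, ?_, ?_, ?_⟩
  · rw [contDiff_iff_contDiffAt]
    intro p
    by_cases hp : p.2 < a / 2
    · have h1 : κ =ᶠ[𝓝 p] fun _ => 0 := by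
        have h2 : {q : Pt | q.2 < a / 2} ∈ 𝓝 p :=
          (isOpen_lt continuous_snd continuous_const).mem_nhds hp
        filter_upwards [h2] with q hq
        show η q / W q = 0
        rw [hηz q hq, zero_div]
      exact contDiffAt_const.congr_of_eventuallyEq h1
    · have hpU : p ∈ UH := by
        show 0 < p.2
        linarith
      exact hηs.contDiffAt.div (hWs.contDiffAt (hUHo.mem_nhds hpU)) (hWpos p hpU).ne'
  · intro p
    by_cases hp : p ∈ UH
    · exact div_nonneg (hη0 p) (hWpos p hp).le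
    · have : η p = 0 := hηz p (by
        have : ¬ (0 < p.2) := hp
        linarith)
      show 0 ≤ η p / W p
      rw [this, zero_div]
  · intro p hp
    apply hηsupp
    intro h
    apply hp
    show η p / W p = 0
    rw [h, zero_div]
  · intro p hp
    have h1 : (fun γ : Gam R => κ (act γ p)) = fun γ : Gam R => η (act γ p) / W p := by
      funext γ
      show η (act γ p) / W (act γ p) = _
      rw [hWinv p hp γ]
    rw [h1]
    have h2 := (hsum p hp).hasSum.div_const (W p)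
    rwa [show (∑' γ : Gam R, η (act γ p)) / W p = 1 from div_self (hWpos p hp).ne'] at h2

end Pool.Agent.Helper64.Ram5
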